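import Pool.Agent.N929.EG.Stm3

/-!
# Words and lists of vertices on `ℤ³`
-/

set_option autoImplicit false

namespace Pool.Agent.N558.EG

open Finset KN TH966.KO Pool.Agent.N929.EG

theorem path_len (u : List Dir) : (path u).length = u.length + 1 := by
  induction u with
  | nil => rfl
  | cons d u ih => simp [path, ih]

theorem path_head (u : List Dir) : ∃ l, path u = pos u :: l := by
  cases u with
  | nil => exact ⟨[], rfl⟩
  | cons d u => exact ⟨path u, rfl⟩

theorem path_last (u : List Dir) : (path u).getLast? = some 0 := by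
  induction u with
  | nil => rfl
  | cons d u ih =>
    obtain ⟨l, hl⟩ := path_head u
    rw [path, List.getLast?_cons, ih]
    rfl

theorem path_chain (u : List Dir) : (path u).IsChain (_root_.flip A3) := by
  induction u with
  | nil => simp [path]
  | cons d u ih =>
    obtain ⟨l, hl⟩ := path_head u
    rw [path, hl, List.isChain_cons_cons]
    refine ⟨⟨d, rfl⟩, ?_⟩
    rw [← hl]
    exact ih

theorem exists_path : ∀ l : List Z3, l.getLast? = some 0 → l.IsChain (_root_.flip A3) → ∃ u, path u = l
  | [], h, _ => by simp at h
  | [x], h, _ => ⟨[], by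
      have : x = 0 := by simpa using h
      rw [this]
      rfl⟩
  | x :: y :: l, h, hc => by
    rw [List.isChain_cons_cons] at hc
    obtain ⟨⟨d, hd⟩, hc'⟩ := hc
    have h' : (y :: l).getLast? = some 0 := by
      rw [← h]; simp [List.getLast?_cons]
    obtain ⟨u, hu⟩ := exists_path (y :: l) h' hc'
    obtain ⟨l', hl'⟩ := path_head u
    rw [hu] at hl'
    refine ⟨d :: u, ?_⟩
    rw [path, hu, ← (List.cons.inj hl').1, ← hd]

theorem wk3 : S_WK3 := by
  intro n w
  constructor
  · rintro ⟨hl, hh, hn, hc⟩
    have h1 : w.reverse.getLast? = some 0 := by rw [List.getLast?_reverse]; exact hh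
    have h2 : w.reverse.IsChain (_root_.flip A3) := by
      rw [List.isChain_reverse]
      exact hc
    obtain ⟨u, hu⟩ := exists_path _ h1 h2
    refine ⟨u, mem_SS.2 ⟨?_, ?_⟩, ?_⟩
    · have := congrArg List.length hu
      rw [path_len, List.length_reverse, hl] at this
      omega
    · unfold SAW
      rw [hu]
      exact List.nodup_reverse.2 hn
    · rw [hu, List.reverse_reverse]
  · rintro ⟨u, hu, rfl⟩
    obtain ⟨h1, h2⟩ := mem_SS.1 hu
    refine ⟨?_, ?_, ?_, ?_⟩
    · rw [List.length_reverse, path_len, h1]
    · rw [List.head?_reverse]; exact path_last u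
    · exact List.nodup_reverse.2 h2
    · rw [List.isChain_reverse]
      exact path_chain u

end Pool.Agent.N558.EG
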